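import Pool.Agent.Q251.PX.GBa
import Pool.Agent.Q284.PX.Stm3

/-!
# Project PX3, job GBl: masses of the low part (helper239)
Adapted from `t_GBa` of project PX (helper251).
-/

set_option autoImplicit false

open Finset Polynomial ComplexConjugate
open Pool.Agent.H341R2.Sharp (Mon mem_Mon)

namespace Pool.Agent.Q239.PX

open Pool.Agent.Q284.PS (BB qq PD Sm NMul S_REC S_GI S_T2)
open Pool.Agent.Q284.PX
open Pool.Agent.Q24.PS (mem_PD Mon_zero three_le)
open Pool.Agent.Q251.PX (om2_pos om2_nonneg w2_nonneg om2_mul gb_core)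

theorem t_GBl : S_REC → S_GI → S_T2 → S_WC2 → S_AFM → S_GBl := by
  intro hR hGI hT hWC hM
  refine ⟨80, fun d hd2 F _ _ hF N v hv hZB => ?_⟩
  have hq := three_le (F := F) hF
  have hqp : 0 < qq F := by linarith
  have hZ : ∀ j : ℕ, 1 ≤ j → j ≤ N →
      ∑ P ∈ PD F j, |v P (j / P.natDegree)| ≤ 2 * BB * w2 (qq F) d j ∧
      ∑ P ∈ PD F j, v P (j / P.natDegree) ^ 2 ≤ 2 * BB ^ 2 * om2 (qq F) d j ∧
      ∑ P ∈ (PD F j).filter (fun P => P.natDegree < j), v P (j / P.natDegree) ^ 2 ≤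
        BB ^ 2 * om2 (qq F) d j / (10 ^ 6 * j) := fun j h1 h2 => hZB j h1 h2
  have hcore := gb_core hR hGI hWC hM (by omega) hq (N := N) v hv
    (fun j h1 h2 => ⟨(hZ j h1 h2).1, (hZ j h1 h2).2.1⟩)
  intro n hn1 hn
  refine ⟨(hcore n hn1 hn).1, (hcore n hn1 hn).2, ?_⟩
  obtain ⟨m1, m2, m3, m4, m5⟩ := hM F v hv
  have hn40 : (1 : ℝ) ≤ n := by exact_mod_cast hn1
  have hnp : (0 : ℝ) < n := by linarith
  have hB : 0 < BB := by
    unfold BB
    norm_num
  obtain ⟨W, hW⟩ : ∃ W : ℝ, W = om2 (qq F) d n := ⟨_, rfl⟩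
  have hW0 : 0 < W := by
    rw [hW]
    exact om2_pos hqp d hn1
  obtain ⟨G, hGd⟩ : ∃ G : ℕ → ℝ, G = fun m => ∑ f ∈ Mon F m, AF v f ^ 2 := ⟨_, rfl⟩
  have hG0 : G 0 = 1 := by
    rw [hGd]
    simp only [Mon_zero, sum_singleton, m1, one_pow]
  have hGn : ∀ m, 0 ≤ G m := by
    intro m
    rw [hGd]
    exact sum_nonneg fun _ _ => by positivity
  have hG1 : ∀ m, 1 ≤ m → m ≤ N → G m ≤ 5 / 2 * BB ^ 2 * om2 (qq F) d m := by
    intro m h1 h2
    rw [hGd]
    exact (hcore m h1 h2).2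
  have key := hT F (fun f : F[X] => AF v f ^ 2) m5 n hn1
  refine key.trans ?_
  rw [← hW]
  -- the first sum
  have s1 : ∑ j ∈ (Icc 1 n).filter (fun j => n < 2 * j),
      (∑ P ∈ (PD F j).filter (fun P => P.natDegree < j), AF v (P ^ (j / P.natDegree)) ^ 2) *
        ∑ f ∈ Mon F (n - j), AF v f ^ 2 ≤ 3 / 10 ^ 6 * (BB ^ 2 * W / n) := by
    have h1 : ∀ j ∈ (Icc 1 n).filter (fun j => n < 2 * j),
        (∑ P ∈ (PD F j).filter (fun P => P.natDegree < j),
          AF v (P ^ (j / P.natDegree)) ^ 2) *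
          ∑ f ∈ Mon F (n - j), AF v f ^ 2 ≤
            2 * BB ^ 2 / (10 ^ 6 * n) * (om2 (qq F) d j * G (n - j)) := by
      intro j hj
      rw [mem_filter, mem_Icc] at hj
      obtain ⟨⟨j1, j2⟩, j3⟩ := hj
      have h2 : ∑ P ∈ (PD F j).filter (fun P => P.natDegree < j),
            AF v (P ^ (j / P.natDegree)) ^ 2 =
          ∑ P ∈ (PD F j).filter (fun P => P.natDegree < j), v P (j / P.natDegree) ^ 2 := by
        apply sum_congr rfl
        intro P hP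
        rw [mem_filter, mem_PD] at hP
        rw [m3 P _ hP.1.1.1 hP.1.2.1]
      have h3 := (hZ j j1 (by omega)).2.2
      have hjp : (0 : ℝ) < j := by exact_mod_cast j1
      have hj3 : (n : ℝ) ≤ 2 * j := by exact_mod_cast j3.le
      have hom := om2_pos hqp d j1
      have h4 : BB ^ 2 * om2 (qq F) d j / (10 ^ 6 * j) ≤ 2 * BB ^ 2 / (10 ^ 6 * n) * om2 (qq F) d j := by
        have h5 : 2 * BB ^ 2 / (10 ^ 6 * n) * om2 (qq F) d j =
            BB ^ 2 * om2 (qq F) d j / (10 ^ 6 * (n / 2)) := by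
          field_simp
        rw [h5]
        apply div_le_div_of_nonneg_left (by positivity) (by positivity)
        linarith
      have h5 : (∑ f ∈ Mon F (n - j), AF v f ^ 2) = G (n - j) := by
        rw [hGd]
      rw [h2, h5, ← mul_assoc]
      exact mul_le_mul_of_nonneg_right (h3.trans h4) (hGn _)
    refine (sum_le_sum h1).trans ?_
    have h2 : ∑ j ∈ (Icc 1 n).filter (fun j => n < 2 * j),
          2 * BB ^ 2 / (10 ^ 6 * n) * (om2 (qq F) d j * G (n - j)) ≤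
        ∑ j ∈ Icc 1 n, 2 * BB ^ 2 / (10 ^ 6 * n) * (om2 (qq F) d j * G (n - j)) := by
      apply sum_le_sum_of_subset_of_nonneg (filter_subset _ _)
      intro j hj _
      rw [mem_Icc] at hj
      have hom := om2_pos hqp d hj.1
      have := hGn (n - j)
      positivity
    refine h2.trans ?_
    rw [← mul_sum]
    have h3 : ∑ j ∈ Icc 1 n, om2 (qq F) d j * G (n - j) ≤ 5 / 2 * BB ^ 2 * (35 * W) + W := by
      obtain ⟨m, hm⟩ : ∃ m, n = m + 1 := ⟨n - 1, by omega⟩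
      have h4 : ∑ j ∈ Icc 1 n, om2 (qq F) d j * G (n - j) =
          ∑ j ∈ Icc 1 (n - 1), om2 (qq F) d j * G (n - j) + om2 (qq F) d n * G (n - n) := by
        conv_lhs => rw [hm, sum_Icc_succ_top (by omega)]
        rw [hm, Nat.add_sub_cancel]
      rw [h4, Nat.sub_self, hG0, mul_one, ← hW]
      have h5 : ∑ j ∈ Icc 1 (n - 1), om2 (qq F) d j * G (n - j) ≤
          ∑ j ∈ Icc 1 (n - 1), 5 / 2 * BB ^ 2 * (om2 (qq F) d j * om2 (qq F) d (n - j)) := by
        apply sum_le_sum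
        intro j hj
        rw [mem_Icc] at hj
        have hom := om2_pos hqp d hj.1
        have h6 := hG1 (n - j) (by omega) (by omega)
        have h7 := mul_le_mul_of_nonneg_left h6 hom.le
        linarith
      rw [← mul_sum] at h5
      have h6 := (hWC (qq F) d n hq (by omega)).2
      rw [← hW] at h6
      have h7 := mul_le_mul_of_nonneg_left h6 (show 0 ≤ 5 / 2 * BB ^ 2 by positivity)
      linarith
    have h4 : 5 / 2 * BB ^ 2 * (35 * W) + W ≤ 3 / 2 * W := by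
      unfold BB
      nlinarith
    calc 2 * BB ^ 2 / (10 ^ 6 * n) * ∑ j ∈ Icc 1 n, om2 (qq F) d j * G (n - j) ≤
        2 * BB ^ 2 / (10 ^ 6 * n) * (3 / 2 * W) := mul_le_mul_of_nonneg_left (h3.trans h4) (by positivity)
      _ = _ := by
          field_simp
  -- the second sum
  have s2 : ∑ i ∈ (Icc 1 n).filter (fun i => n ≤ 4 * i ∧ 4 * i ≤ 3 * n),
      (∑ f ∈ Mon F i, AF v f ^ 2) * ∑ f ∈ Mon F (n - i), AF v f ^ 2 ≤
        97 / 10 ^ 6 * (BB ^ 2 * W / n) := by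
    have h1 : ∀ i ∈ (Icc 1 n).filter (fun i => n ≤ 4 * i ∧ 4 * i ≤ 3 * n),
        (∑ f ∈ Mon F i, AF v f ^ 2) * ∑ f ∈ Mon F (n - i), AF v f ^ 2 ≤
          25 / 4 * BB ^ 4 * ((16 / 3) ^ 4 / (n : ℝ) ^ 4 * W) := by
      intro i hi
      rw [mem_filter, mem_Icc] at hi
      obtain ⟨⟨i1, i2⟩, i3, i4⟩ := hi
      have h2 := hG1 i i1 (by omega)
      have h3 := hG1 (n - i) (by omega) (by omega)
      have h4 := om2_mul (q := qq F) (by linarith) (d := d) hn1 i3 i4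
      rw [← hW] at h4
      have h5 : (∑ f ∈ Mon F i, AF v f ^ 2) = G i := by rw [hGd]
      have h6 : (∑ f ∈ Mon F (n - i), AF v f ^ 2) = G (n - i) := by rw [hGd]
      rw [h5, h6]
      have ho1 := om2_pos hqp d i1
      have h7 : G i * G (n - i) ≤
          (5 / 2 * BB ^ 2 * om2 (qq F) d i) * (5 / 2 * BB ^ 2 * om2 (qq F) d (n - i)) :=
        mul_le_mul h2 h3 (hGn _) (by positivity)
      have h8 := mul_le_mul_of_nonneg_left h4 (show 0 ≤ 25 / 4 * BB ^ 4 by positivity)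
      calc G i * G (n - i) ≤
          (5 / 2 * BB ^ 2 * om2 (qq F) d i) * (5 / 2 * BB ^ 2 * om2 (qq F) d (n - i)) := h7
        _ = 25 / 4 * BB ^ 4 * (om2 (qq F) d i * om2 (qq F) d (n - i)) := by ring
        _ ≤ _ := h8
    refine (sum_le_sum h1).trans ?_
    rw [sum_const, nsmul_eq_mul]
    have h2 : (((Icc 1 n).filter (fun i => n ≤ 4 * i ∧ 4 * i ≤ 3 * n)).card : ℝ) ≤ n := by
      have h3 := card_filter_le (Icc 1 n) (fun i => n ≤ 4 * i ∧ 4 * i ≤ 3 * n)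
      rw [Nat.card_Icc, Nat.add_sub_cancel] at h3
      exact_mod_cast h3
    have h3 : (n : ℝ) * (25 / 4 * BB ^ 4 * ((16 / 3) ^ 4 / (n : ℝ) ^ 4 * W)) =
        25 / 4 * ((16 / 3) ^ 4) * BB ^ 2 / (n : ℝ) ^ 2 * (BB ^ 2 * W / n) := by
      field_simp
    have h4 : 25 / 4 * ((16 / 3) ^ 4) * BB ^ 2 / (n : ℝ) ^ 2 ≤ 97 / 10 ^ 6 := by
      rw [div_le_iff₀ (by positivity)]
      have h5 : (1 : ℝ) ≤ (n : ℝ) ^ 2 := by nlinarith
      unfold BB
      nlinarith
    calc _ ≤ (n : ℝ) * (25 / 4 * BB ^ 4 * ((16 / 3) ^ 4 / (n : ℝ) ^ 4 * W)) :=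
          mul_le_mul_of_nonneg_right h2 (by positivity)
      _ = 25 / 4 * ((16 / 3) ^ 4) * BB ^ 2 / (n : ℝ) ^ 2 * (BB ^ 2 * W / n) := h3
      _ ≤ _ := mul_le_mul_of_nonneg_right h4 (by positivity)
  have h9 : 0 ≤ BB ^ 2 * W / n := by positivity
  linarith

end Pool.Agent.Q239.PX
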