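import Mathlib
import Pool.Agent.Q284.PX.Stm3
import Pool.Agent.Q162.PX.FPS

/-!
# Project PX3: the local family for the standard L-functions (job H1F of helper284)
-/

set_option autoImplicit false

open Finset Polynomial ComplexConjugate

namespace Pool.Agent.Q239.PX

open Pool.Agent.Q284.PX Pool.Agent.Q284.PS

/-- the power series `f` converges absolutely at `x`, with value `s` -/
def AC (f : PowerSeries ℂ) (x s : ℂ) : Prop :=
  Summable (fun n : ℕ => ‖PowerSeries.coeff n f * x ^ n‖) ∧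
  HasSum (fun n : ℕ => PowerSeries.coeff n f * x ^ n) s

theorem AC.one (x : ℂ) : AC 1 x 1 := by
  have h : HasSum (fun n : ℕ => PowerSeries.coeff n (1 : PowerSeries ℂ) * x ^ n) 1 := by
    have h1 := hasSum_ite_eq 0 (1 : ℂ)
    refine h1.congr_fun ?_ |> fun h => h
    intro n
    rw [PowerSeries.coeff_one]
    by_cases hn : n = 0
    · rw [if_pos hn, hn, pow_zero, mul_one]
    · rw [if_neg hn, zero_mul]
  exact ⟨h.summable.norm, h⟩

theorem AC.mul {f k : PowerSeries ℂ} {x s t : ℂ} (hf : AC f x s) (hk : AC k x t) :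
    AC (f * k) x (s * t) := by
  have hfun : (fun n : ℕ => PowerSeries.coeff n (f * k) * x ^ n) = fun n : ℕ =>
      ∑ p ∈ HasAntidiagonal.antidiagonal n, PowerSeries.coeff p.1 f * x ^ p.1 *
        (PowerSeries.coeff p.2 k * x ^ p.2) := by
    funext n
    rw [PowerSeries.coeff_mul, Finset.sum_mul]
    refine Finset.sum_congr rfl fun p hp => ?_
    have h3 : p.1 + p.2 = n := mem_antidiagonal.1 hp
    rw [← h3, pow_add]
    ring
  have h1 := summable_norm_sum_mul_antidiagonal_of_summable_norm hf.1 hk.1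
  have h2 := tsum_mul_tsum_eq_tsum_sum_antidiagonal_of_summable_norm hf.1 hk.1
  rw [hf.2.tsum_eq, hk.2.tsum_eq] at h2
  refine ⟨?_, ?_⟩
  · have h3 : (fun n : ℕ => ‖PowerSeries.coeff n (f * k) * x ^ n‖) = fun n : ℕ =>
      ‖∑ p ∈ HasAntidiagonal.antidiagonal n, PowerSeries.coeff p.1 f * x ^ p.1 *
        (PowerSeries.coeff p.2 k * x ^ p.2)‖ := by
      funext n
      rw [congrFun hfun n]
    rw [h3]
    exact h1
  · rw [hfun, h2]
    exact h1.of_norm.hasSum

theorem AC.prod {ι : Type} (S : Finset ι) (f : ι → PowerSeries ℂ) (t : ι → ℂ) (x : ℂ)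
    (h : ∀ i ∈ S, AC (f i) x (t i)) : AC (∏ i ∈ S, f i) x (∏ i ∈ S, t i) := by
  classical
  induction S using Finset.induction_on with
  | empty => simpa using AC.one x
  | insert a S ha ih =>
    rw [Finset.prod_insert ha, Finset.prod_insert ha]
    exact (h a (Finset.mem_insert_self _ _)).mul
      (ih fun i hi => h i (Finset.mem_insert_of_mem hi))

/-- the geometric series -/
noncomputable def geo (γ : ℂ) : PowerSeries ℂ := PowerSeries.mk fun n => γ ^ n

theorem geo_mul (γ : ℂ) : geo γ * (1 - PowerSeries.C γ * PowerSeries.X) = 1 := by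
  ext n
  rw [mul_sub, mul_one, map_sub, PowerSeries.coeff_one, ← mul_assoc]
  cases n with
  | zero =>
    rw [PowerSeries.coeff_zero_mul_X, if_pos rfl, geo, PowerSeries.coeff_mk, pow_zero, sub_zero]
  | succ n =>
    rw [PowerSeries.coeff_succ_mul_X, mul_comm, PowerSeries.coeff_C_mul, geo,
      PowerSeries.coeff_mk, PowerSeries.coeff_mk, if_neg (Nat.succ_ne_zero n), pow_succ']
    ring

theorem rescale_geo (c γ : ℂ) : PowerSeries.rescale c (geo γ) = geo (c * γ) := by
  ext n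
  rw [PowerSeries.coeff_rescale, geo, geo, PowerSeries.coeff_mk, PowerSeries.coeff_mk, mul_pow]

theorem AC_geo (γ x : ℂ) (h : ‖γ * x‖ < 1) : AC (geo γ) x (1 - γ * x)⁻¹ := by
  have h0 : (fun n : ℕ => PowerSeries.coeff n (geo γ) * x ^ n) = fun n : ℕ => (γ * x) ^ n := by
    funext n
    rw [geo, PowerSeries.coeff_mk, mul_pow]
  have h1 : HasSum (fun n : ℕ => (γ * x) ^ n) (1 - γ * x)⁻¹ := hasSum_geometric_of_norm_lt_one h
  rw [← h0] at h1
  exact ⟨h1.summable.norm, h1⟩

/-- the inverse of a product of linear factors -/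
theorem inv_prod_geo {g : ℕ} (hg : 2 ≤ g) (b : ℂ) (β : Fin g → ℂ)
    (hβ : (1 - C b * X - C ((-1) ^ g * conj b) * X ^ (g - 1) + C ((-1) ^ g) * X ^ g : ℂ[X]) =
      ∏ j, (1 - C (β j) * X)) : (loc g b)⁻¹ = ∏ j, geo (β j) := by
  have h0 : PowerSeries.constantCoeff (loc g b) ≠ 0 := by
    rw [Pool.Agent.Q162.PX.loc_const g hg]
    exact one_ne_zero
  have h1 : loc g b = ∏ j, (1 - PowerSeries.C (β j) * PowerSeries.X) := by
    have h2 := congrArg (Polynomial.coeToPowerSeries.ringHom (R := ℂ)) hβ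
    rw [map_prod] at h2
    simp only [map_add, map_sub, map_one, map_mul, map_pow,
      Polynomial.coeToPowerSeries.ringHom_apply, Polynomial.coe_C, Polynomial.coe_X] at h2
    rw [← h2]
    unfold loc
    simp only [map_mul, map_pow, map_neg, map_one]
  symm
  rw [PowerSeries.eq_inv_iff_mul_eq_one h0, h1, ← Finset.prod_mul_distrib]
  exact Finset.prod_eq_one fun j _ => geo_mul (β j)

/-- the coefficients of the inverse for `b = 0` -/
theorem hh_zero_norm (g : ℕ) (hg : 2 ≤ g) (n : ℕ) : ‖hh g 0 n‖ ≤ if g ∣ n then 1 else 0 := by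
  have h0 : PowerSeries.constantCoeff (loc g (0 : ℂ)) ≠ 0 := by
    rw [Pool.Agent.Q162.PX.loc_const g hg]
    exact one_ne_zero
  have hl : loc g (0 : ℂ) = 1 + PowerSeries.C ((-1) ^ g) * PowerSeries.X ^ g := by
    unfold loc
    simp only [map_zero, mul_zero, zero_mul, sub_zero]
  have hinv := PowerSeries.inv_mul_cancel (loc g (0 : ℂ)) h0
  rw [hl, mul_add, mul_one, ← mul_assoc] at hinv
  rw [← hl] at hinv
  have hrec : ∀ n : ℕ, hh g 0 n + (if g ≤ n then (-1) ^ g * hh g 0 (n - g) else 0) =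
      if n = 0 then 1 else 0 := by
    intro n
    have h1 := congrArg (PowerSeries.coeff n) hinv
    rw [map_add, PowerSeries.coeff_mul_X_pow', PowerSeries.coeff_one] at h1
    rw [← h1]
    congr 1
    split_ifs
    · rw [mul_comm ((loc g (0 : ℂ))⁻¹), PowerSeries.coeff_C_mul]
      rfl
    · rfl
  induction n using Nat.strong_induction_on with
  | _ n ih =>
    have h1 := hrec n
    by_cases hn : n = 0
    · subst hn
      rw [if_pos (dvd_zero g), Pool.Agent.Q162.PX.hh_zero g hg, norm_one]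
    · rw [if_neg hn] at h1
      by_cases hgn : g ≤ n
      · rw [if_pos hgn] at h1
        have h2 : hh g 0 n = -((-1) ^ g * hh g 0 (n - g)) := by linear_combination h1
        rw [h2, norm_neg, norm_mul, norm_pow, norm_neg, norm_one, one_pow, one_mul]
        have h3 := ih (n - g) (by omega)
        have h4 : g ∣ n - g ↔ g ∣ n := by
          constructor
          · intro h
            have := Nat.dvd_add h (dvd_refl g)
            rwa [Nat.sub_add_cancel hgn] at this
          · intro h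
            exact Nat.dvd_sub h (dvd_refl g)
        rw [if_congr h4 rfl rfl] at h3
        exact h3
      · rw [if_neg hgn, add_zero] at h1
        rw [h1, norm_zero]
        split_ifs <;> norm_num

theorem count_le (g k : ℕ) (hg : 1 ≤ g) :
    ∑ p ∈ antidiagonal k, (if g ∣ p.1 then (1 : ℝ) else 0) ≤ (3 : ℝ) ^ ((k : ℝ) / g) := by
  have h1 : ∑ p ∈ antidiagonal k, (if g ∣ p.1 then (1 : ℝ) else 0) =
      (((antidiagonal k).filter fun p => g ∣ p.1).card : ℝ) := by
    rw [Finset.sum_ite, Finset.sum_const_zero, add_zero, Finset.sum_const, nsmul_eq_mul, mul_one]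
  have h2 : ((antidiagonal k).filter fun p => g ∣ p.1).card ≤ k / g + 1 := by
    rw [← Finset.card_range (k / g + 1)]
    refine Finset.card_le_card_of_injOn (fun p => p.1 / g) ?_ ?_
    · intro p hp
      have hp1 := (Finset.mem_filter.1 hp).1
      have hp2 := mem_antidiagonal.1 hp1
      have h3 : p.1 / g ≤ k / g := Nat.div_le_div_right (by omega)
      exact Finset.mem_coe.2 (Finset.mem_range.2 (by show p.1 / g < k / g + 1; omega))
    · intro p hp r hr hpr
      have hp1 := (Finset.mem_filter.1 hp)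
      have hr1 := (Finset.mem_filter.1 hr)
      have hp2 := mem_antidiagonal.1 hp1.1
      have hr2 := mem_antidiagonal.1 hr1.1
      have h3 : p.1 / g = r.1 / g := hpr
      have h4 : p.1 = r.1 := by
        rw [← Nat.div_mul_cancel hp1.2, ← Nat.div_mul_cancel hr1.2, h3]
      ext
      · exact h4
      · omega
  have h3 : ∀ m : ℕ, m + 1 ≤ 3 ^ m := by
    intro m
    induction m with
    | zero => norm_num
    | succ m ih => rw [pow_succ]; omega
  rw [h1]
  calc (((antidiagonal k).filter fun p => g ∣ p.1).card : ℝ) ≤ ((k / g + 1 : ℕ) : ℝ) := by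
        exact_mod_cast h2
    _ ≤ ((3 ^ (k / g) : ℕ) : ℝ) := by exact_mod_cast h3 (k / g)
    _ = (3 : ℝ) ^ (((k / g : ℕ)) : ℝ) := by
        rw [Real.rpow_natCast]
        push_cast
        ring
    _ ≤ (3 : ℝ) ^ ((k : ℝ) / g) :=
        Real.rpow_le_rpow_of_exponent_le (by norm_num) Nat.cast_div_le

/-- the parameter `b` -/
noncomputable def bb (y z : ℝ) : ℝ := z / (y + y⁻¹)

/-- the coefficients of the inverse, real -/
noncomputable def eta (g : ℕ) (b : ℝ) (k : ℕ) : ℝ := (hh g (b : ℂ) k).re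

/-- the product of the two rescaled series -/
noncomputable def vv (g : ℕ) (y z : ℝ) (k : ℕ) : ℝ :=
  if |z| ≤ 1 / 100 then ∑ p ∈ antidiagonal k,
    (y ^ p.1 * eta g (bb y z) p.1) * ((y⁻¹) ^ p.2 * eta g (bb y z) p.2)
  else if k = 0 then 1 else 0

theorem bb_abs (y z : ℝ) (hy : 1 ≤ y) : y * |bb y z| ≤ |z| := by
  have hy0 : 0 < y := by linarith
  have hi : 0 < y⁻¹ := inv_pos.2 hy0
  unfold bb
  rw [abs_div, abs_of_pos (add_pos hy0 hi), mul_div_assoc', div_le_iff₀ (add_pos hy0 hi)]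
  nlinarith [abs_nonneg z, mul_nonneg (abs_nonneg z) hi.le]

theorem bb_small (y z : ℝ) (hy : 1 ≤ y) (hz : |z| ≤ 1 / 100) : ‖((bb y z : ℝ) : ℂ)‖ ≤ 1 / 4 := by
  have h1 := bb_abs y z hy
  rw [Complex.norm_real, Real.norm_eq_abs]
  nlinarith [abs_nonneg (bb y z)]

theorem inv_pow_le (y : ℝ) (hy : 1 ≤ y) (i j k : ℕ) (h : i + j = k) :
    y ^ i * (y⁻¹) ^ j ≤ y ^ k := by
  have hy0 : 0 < y := by linarith
  have h1 : (y⁻¹) ^ j ≤ y ^ j := by
    have h2 : y⁻¹ ≤ 1 := inv_le_one_of_one_le₀ hy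
    exact pow_le_pow_left₀ (inv_nonneg.2 hy0.le) (h2.trans hy) j
  calc y ^ i * (y⁻¹) ^ j ≤ y ^ i * y ^ j := mul_le_mul_of_nonneg_left h1 (by positivity)
    _ = y ^ k := by rw [← pow_add, h]

theorem term_abs (g : ℕ) (y b : ℝ) (hy : 1 ≤ y) (i j k : ℕ) (h : i + j = k) :
    |(y ^ i * eta g b i) * ((y⁻¹) ^ j * eta g b j)| ≤ y ^ k * (|eta g b i| * |eta g b j|) := by
  have hy0 : 0 < y := by linarith
  have h1 : |(y ^ i * eta g b i) * ((y⁻¹) ^ j * eta g b j)| =
      (y ^ i * (y⁻¹) ^ j) * (|eta g b i| * |eta g b j|) := by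
    rw [abs_mul, abs_mul, abs_mul, abs_of_nonneg (by positivity : 0 ≤ y ^ i),
      abs_of_nonneg (by positivity : 0 ≤ (y⁻¹) ^ j)]
    ring
  rw [h1]
  exact mul_le_mul_of_nonneg_right (inv_pow_le y hy i j k h) (by positivity)

theorem small_range (hLOC1 : S_LOC1) (g : ℕ) (hg : 4 ≤ g) (y z : ℝ) (hy : 1 ≤ y)
    (hz : |z| ≤ 1 / 100) (k : ℕ) (hk : k < g - 1) : |vv g y z k| ≤ (k + 1 : ℝ) * |z| ^ k := by
  have hb := hLOC1 g (bb y z : ℝ) hg (bb_small y z hy hz)
  have heta : ∀ i : ℕ, i ≤ k → eta g (bb y z) i = bb y z ^ i := by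
    intro i hi
    unfold eta
    rcases Nat.eq_zero_or_pos i with h | h
    · rw [h, hb.1, pow_zero, Complex.one_re]
    · rw [hb.2.1 i h (by omega), ← Complex.ofReal_pow, Complex.ofReal_re]
  unfold vv
  rw [if_pos hz]
  refine (Finset.abs_sum_le_sum_abs _ _).trans ?_
  have h1 : ∀ p ∈ antidiagonal k, |(y ^ p.1 * eta g (bb y z) p.1) *
      ((y⁻¹) ^ p.2 * eta g (bb y z) p.2)| ≤ |z| ^ k := by
    intro p hp
    have hp1 := mem_antidiagonal.1 hp
    refine (term_abs g y _ hy p.1 p.2 k hp1).trans ?_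
    rw [heta p.1 (by omega), heta p.2 (by omega), abs_pow, abs_pow, ← pow_add, hp1, ← mul_pow]
    exact pow_le_pow_left₀ (by positivity) (bb_abs y z hy) k
  refine (Finset.sum_le_sum h1).trans ?_
  rw [Finset.sum_const, Finset.Nat.card_antidiagonal, nsmul_eq_mul]
  push_cast
  exact le_rfl

theorem all_range (hLOC1 : S_LOC1) (g : ℕ) (hg : 4 ≤ g) (y z : ℝ) (hy : 1 ≤ y)
    (hz : |z| ≤ 1 / 100) (k : ℕ) :
    |vv g y z k| ≤ (k + 1 : ℝ) * ((3 : ℝ) ^ ((k : ℝ) / g) * y ^ k) := by
  have hb := hLOC1 g (bb y z : ℝ) hg (bb_small y z hy hz)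
  have heta : ∀ i : ℕ, |eta g (bb y z) i| ≤ (3 : ℝ) ^ ((i : ℝ) / g) := by
    intro i
    exact (Complex.abs_re_le_norm _).trans (hb.2.2.2 i)
  unfold vv
  rw [if_pos hz]
  refine (Finset.abs_sum_le_sum_abs _ _).trans ?_
  have h1 : ∀ p ∈ antidiagonal k, |(y ^ p.1 * eta g (bb y z) p.1) *
      ((y⁻¹) ^ p.2 * eta g (bb y z) p.2)| ≤ (3 : ℝ) ^ ((k : ℝ) / g) * y ^ k := by
    intro p hp
    have hp1 := mem_antidiagonal.1 hp
    refine (term_abs g y _ hy p.1 p.2 k hp1).trans ?_
    rw [mul_comm]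
    refine mul_le_mul_of_nonneg_right ?_ (by positivity)
    refine (mul_le_mul (heta p.1) (heta p.2) (abs_nonneg _)
      (Real.rpow_nonneg (by norm_num) _)).trans ?_
    rw [← Real.rpow_add (by norm_num), ← add_div, ← Nat.cast_add, hp1]
  refine (Finset.sum_le_sum h1).trans ?_
  rw [Finset.sum_const, Finset.Nat.card_antidiagonal, nsmul_eq_mul]
  push_cast
  exact le_rfl

theorem zero_range (g : ℕ) (hg : 4 ≤ g) (y : ℝ) (hy : 1 ≤ y) (k : ℕ) :
    |vv g y 0 k| ≤ (3 : ℝ) ^ ((k : ℝ) / g) * y ^ k := by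
  have hb0 : bb y 0 = 0 := by unfold bb; rw [zero_div]
  have heta : ∀ i : ℕ, |eta g 0 i| ≤ if g ∣ i then 1 else 0 := by
    intro i
    have h1 := hh_zero_norm g (by omega) i
    have h2 := Complex.abs_re_le_norm (hh g ((0 : ℝ) : ℂ) i)
    rw [Complex.ofReal_zero] at h2
    unfold eta
    rw [Complex.ofReal_zero]
    exact h2.trans h1
  have heta1 : ∀ i : ℕ, |eta g 0 i| ≤ 1 := by
    intro i
    refine (heta i).trans ?_
    split_ifs <;> norm_num
  unfold vv
  rw [if_pos (by rw [abs_zero]; norm_num), hb0]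
  refine (Finset.abs_sum_le_sum_abs _ _).trans ?_
  have h1 : ∀ p ∈ antidiagonal k, |(y ^ p.1 * eta g 0 p.1) *
      ((y⁻¹) ^ p.2 * eta g 0 p.2)| ≤ (if g ∣ p.1 then (1 : ℝ) else 0) * y ^ k := by
    intro p hp
    have hp1 := mem_antidiagonal.1 hp
    refine (term_abs g y _ hy p.1 p.2 k hp1).trans ?_
    rw [mul_comm]
    refine mul_le_mul_of_nonneg_right ?_ (by positivity)
    calc |eta g 0 p.1| * |eta g 0 p.2| ≤ (if g ∣ p.1 then (1 : ℝ) else 0) * 1 :=
          mul_le_mul (heta p.1) (heta1 p.2) (abs_nonneg _) (by split_ifs <;> norm_num)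
      _ = _ := mul_one _
  refine (Finset.sum_le_sum h1).trans ?_
  rw [← Finset.sum_mul]
  exact mul_le_mul_of_nonneg_right (count_le g k (by omega)) (by positivity)

/-- the numerical inequality for the large degrees -/
theorem num_large (g k : ℕ) (hg : 5000 ≤ g) (hk : g - 1 ≤ k) :
    (k + 1 : ℝ) * (3 : ℝ) ^ ((k : ℝ) / g) ≤ 2 * (3 : ℝ) ^ ((k : ℝ) / 64) := by
  have hgr : (5000 : ℝ) ≤ g := by exact_mod_cast hg
  have hkr : (4999 : ℝ) ≤ k := by
    have : 4999 ≤ k := by omega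
    exact_mod_cast this
  have h1 : (3 : ℝ) ^ ((k : ℝ) / g) ≤ (3 : ℝ) ^ ((k : ℝ) / 128) := by
    refine Real.rpow_le_rpow_of_exponent_le (by norm_num) ?_
    exact div_le_div_of_nonneg_left (Nat.cast_nonneg k) (by norm_num) (by linarith)
  have h2 : (3 : ℝ) ^ ((k : ℝ) / 64) = (3 : ℝ) ^ ((k : ℝ) / 128) * (3 : ℝ) ^ ((k : ℝ) / 128) := by
    rw [← Real.rpow_add (by norm_num)]
    congr 1
    ring
  have h3 : (3 : ℝ) ^ ((k : ℝ) / 128) = ((3 : ℝ) ^ ((k : ℝ) / 512)) ^ 4 := by
    rw [← Real.rpow_natCast, ← Real.rpow_mul (by norm_num)]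
    congr 1
    push_cast
    ring
  have h4 : 1 + (k : ℝ) / 512 ≤ (3 : ℝ) ^ ((k : ℝ) / 512) := by
    have h5 : Real.exp ((k : ℝ) / 512) ≤ (3 : ℝ) ^ ((k : ℝ) / 512) := by
      rw [Real.rpow_def_of_pos (by norm_num)]
      refine Real.exp_le_exp.2 ?_
      have h6 : 1 ≤ Real.log 3 := by
        rw [Real.le_log_iff_exp_le (by norm_num)]
        have := Real.exp_one_lt_d9
        linarith
      have h7 : 0 ≤ (k : ℝ) / 512 := by positivity
      nlinarith
    have h8 := Real.add_one_le_exp ((k : ℝ) / 512)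
    linarith
  have h9 : (k + 1 : ℝ) ≤ 2 * (3 : ℝ) ^ ((k : ℝ) / 128) := by
    have h10 : (1 + (k : ℝ) / 512) ^ 4 ≤ (3 : ℝ) ^ ((k : ℝ) / 128) := by
      rw [h3]
      exact pow_le_pow_left₀ (by positivity) h4 4
    have h11 : (9 : ℝ) ≤ (k : ℝ) / 512 := by linarith
    set t : ℝ := (k : ℝ) / 512 with ht
    have hk' : (k : ℝ) = 512 * t := by rw [ht]; ring
    have h12 : (1000 : ℝ) ≤ (1 + t) ^ 3 := by
      have : (10 : ℝ) ^ 3 ≤ (1 + t) ^ 3 := pow_le_pow_left₀ (by norm_num) (by linarith) 3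
      linarith
    have h13 : (1000 : ℝ) * (1 + t) ≤ (1 + t) ^ 4 := by
      have h14 : (1 + t) ^ 4 = (1 + t) ^ 3 * (1 + t) := by ring
      rw [h14]
      exact mul_le_mul_of_nonneg_right h12 (by linarith)
    have h14 : (k + 1 : ℝ) ≤ 2 * (1 + t) ^ 4 := by linarith
    linarith
  rw [h2]
  have h15 : 0 ≤ (3 : ℝ) ^ ((k : ℝ) / 128) := Real.rpow_nonneg (by norm_num) _
  have h16 : 0 ≤ (3 : ℝ) ^ ((k : ℝ) / g) := Real.rpow_nonneg (by norm_num) _
  calc (k + 1 : ℝ) * (3 : ℝ) ^ ((k : ℝ) / g) ≤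
      (2 * (3 : ℝ) ^ ((k : ℝ) / 128)) * (3 : ℝ) ^ ((k : ℝ) / 128) :=
        mul_le_mul h9 h1 h16 (by positivity)
    _ = _ := by ring

theorem num_small (k : ℕ) : ((k : ℝ) + 1) * (1 / 100) ^ k ≤ 1 := by
  induction k with
  | zero => norm_num
  | succ k ih =>
    have h1 : (0 : ℝ) < (1 / 100) ^ k := by positivity
    have h2 : (0 : ℝ) ≤ (k : ℝ) * (1 / 100) ^ k := by positivity
    rw [pow_succ]
    push_cast
    nlinarith

/-- JOB H1F -/
theorem t_H1F (hLOC1 : S_LOC1) (hLOC2 : S_LOC2) : S_H1F := by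
  refine ⟨5000, fun g hg => ⟨vv g, fun y hy => ⟨fun z => ?_, fun z hz => ?_, fun z k hz hk hk' => ?_,
    fun z k hz => ?_, fun k => zero_range g (by omega) y hy k, fun z hz => ?_⟩⟩⟩
  · -- coefficient 0
    unfold vv
    by_cases hz : |z| ≤ 1 / 100
    · rw [if_pos hz, Finset.Nat.antidiagonal_zero, Finset.sum_singleton]
      unfold eta
      rw [Pool.Agent.Q162.PX.hh_zero g (by omega), pow_zero, pow_zero, Complex.one_re]
      norm_num
    · rw [if_neg hz, if_pos rfl]
  · -- coefficient 1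
    have hy0 : 0 < y := by linarith
    have hb := hLOC1 g (bb y z : ℝ) (by omega) (bb_small y z hy hz)
    have h1 : eta g (bb y z) 1 = bb y z := by
      unfold eta
      rw [hb.2.1 1 le_rfl (by omega), pow_one, Complex.ofReal_re]
    have h0 : eta g (bb y z) 0 = 1 := by
      unfold eta
      rw [hb.1, Complex.one_re]
    unfold vv
    have ha : antidiagonal 1 = ({(0, 1), (1, 0)} : Finset (ℕ × ℕ)) := rfl
    rw [if_pos hz, ha, Finset.sum_pair (by decide)]
    simp only [pow_zero, pow_one, h0, h1]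
    unfold bb
    have : y + y⁻¹ ≠ 0 := by positivity
    field_simp
    ring
  · -- small degrees
    refine (small_range hLOC1 g (by omega) y z hy hz k hk').trans ?_
    obtain ⟨m, rfl⟩ : ∃ m, k = m + 2 := ⟨k - 2, by omega⟩
    have h1 : |z| ^ (m + 2) = |z| ^ m * z ^ 2 := by rw [pow_add, sq_abs]
    have h2 : |z| ^ m ≤ (1 / 100) ^ m := pow_le_pow_left₀ (abs_nonneg z) hz m
    have h3 := num_small m
    have h4 : (1 / 100 : ℝ) ^ m ≤ 1 := pow_le_one₀ (by norm_num) (by norm_num)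
    have h5 : (((m + 2 : ℕ) : ℝ) + 1) * |z| ^ m ≤ 10 := by
      have h6 : (((m + 2 : ℕ) : ℝ) + 1) * |z| ^ m ≤ (((m + 2 : ℕ) : ℝ) + 1) * (1 / 100) ^ m :=
        mul_le_mul_of_nonneg_left h2 (by positivity)
      refine h6.trans ?_
      push_cast
      nlinarith
    rw [h1, ← mul_assoc]
    exact mul_le_mul_of_nonneg_right h5 (sq_nonneg z)
  · -- all degrees
    rcases Nat.lt_or_ge k (g - 1) with hk | hk
    · refine (small_range hLOC1 g (by omega) y z hy hz k hk).trans ?_
      have h2 : |z| ^ k ≤ (1 / 100) ^ k := pow_le_pow_left₀ (abs_nonneg z) hz k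
      have h3 := num_small k
      have h4 : (1 : ℝ) ≤ (3 : ℝ) ^ ((k : ℝ) / 64) :=
        Real.one_le_rpow (by norm_num) (by positivity)
      have h5 : (1 : ℝ) ≤ y ^ k := one_le_pow₀ hy
      have h6 : ((k : ℝ) + 1) * |z| ^ k ≤ 1 :=
        (mul_le_mul_of_nonneg_left h2 (by positivity)).trans h3
      nlinarith [mul_le_mul h4 h5 (by norm_num) (by linarith)]
    · refine (all_range hLOC1 g (by omega) y z hy hz k).trans ?_
      rw [← mul_assoc]
      exact mul_le_mul_of_nonneg_right (num_large g k hg hk) (by positivity)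
  · -- the Satake parameters
    obtain ⟨β, h1, h2, h3⟩ := hLOC2 g (bb y z : ℝ) (by omega) (bb_small y z hy hz)
    have hy0 : 0 < y := by linarith
    refine ⟨β, h1, h3, fun w => ?_, fun w hw => ?_⟩
    · have h4 : ∀ w : ℂ, ∏ j, (1 - β j * w) =
          1 - bb y z * w - (-1) ^ g * bb y z * w ^ (g - 1) + (-1) ^ g * w ^ g := by
        intro w
        have h5 := congrArg (Polynomial.eval w) h2
        rw [Polynomial.eval_prod] at h5
        simp only [Polynomial.eval_sub, Polynomial.eval_one, Polynomial.eval_mul,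
          Polynomial.eval_C, Polynomial.eval_X, Polynomial.eval_add, Polynomial.eval_pow,
          Complex.conj_ofReal] at h5
        exact h5.symm
      have h5 : ∏ j, (1 - conj (β j) * w) = conj (∏ j, (1 - β j * conj w)) := by
        rw [map_prod]
        refine Finset.prod_congr rfl fun j _ => ?_
        rw [map_sub, map_one, map_mul, Complex.conj_conj]
      rw [h5, h4, h4]
      simp only [map_add, map_sub, map_one, map_mul, map_pow, map_neg, Complex.conj_conj,
        Complex.conj_ofReal]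
    · have hinv := inv_prod_geo (by omega : 2 ≤ g) ((bb y z : ℝ) : ℂ) β h2
      have hr : ∀ c : ℂ, PowerSeries.rescale c (loc g ((bb y z : ℝ) : ℂ))⁻¹ =
          ∏ j, geo (c * β j) := by
        intro c
        rw [hinv, map_prod]
        exact Finset.prod_congr rfl fun j _ => rescale_geo c (β j)
      have hA : AC (PowerSeries.rescale (y : ℂ) (loc g ((bb y z : ℝ) : ℂ))⁻¹) w
          (∏ j, (1 - (y : ℂ) * β j * w)⁻¹) := by
        rw [hr]
        refine AC.prod _ _ _ _ fun j _ => AC_geo _ _ ?_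
        rw [norm_mul, norm_mul, h1 j, mul_one, Complex.norm_real, Real.norm_eq_abs,
          abs_of_pos hy0]
        exact hw
      have hB : AC (PowerSeries.rescale ((y⁻¹ : ℝ) : ℂ) (loc g ((bb y z : ℝ) : ℂ))⁻¹) w
          (∏ j, (1 - ((y⁻¹ : ℝ) : ℂ) * β j * w)⁻¹) := by
        rw [hr]
        refine AC.prod _ _ _ _ fun j _ => AC_geo _ _ ?_
        rw [norm_mul, norm_mul, h1 j, mul_one, Complex.norm_real, Real.norm_eq_abs,
          abs_of_pos (inv_pos.2 hy0)]
        have h6 : y⁻¹ ≤ y := (inv_le_one_of_one_le₀ hy).trans hy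
        exact (mul_le_mul_of_nonneg_right h6 (norm_nonneg w)).trans_lt hw
      have hAB := (hA.mul hB).2
      rw [← Finset.prod_mul_distrib] at hAB
      refine hAB.congr_fun ?_ |> fun h => h
      intro k
      congr 1
      rw [PowerSeries.coeff_mul]
      unfold vv
      rw [if_pos hz]
      push_cast
      refine Finset.sum_congr rfl fun p _ => ?_
      rw [PowerSeries.coeff_rescale, PowerSeries.coeff_rescale]
      unfold eta
      rw [← Pool.Agent.Q162.PX.hh_real g (by omega) (bb y z) p.1,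
        ← Pool.Agent.Q162.PX.hh_real g (by omega) (bb y z) p.2]
      unfold hh
      push_cast
      ring

end Pool.Agent.Q239.PX
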